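import Pool.Agent.W793.SCH.Stm

set_option autoImplicit false

open MeasureTheory

namespace Pool.Agent.W557.SCH

open Pool.Agent.W793.SCH

noncomputable section

def ff (d k : ℕ) (z : Fin d → ℤ) (θ : Fin d → ℝ) : ℝ :=
  (1 - lam θ / (4 * d)) ^ k * Real.cos (∑ i, θ i * z i)

def JJ (d k : ℕ) (z : Fin d → ℤ) : ℝ := ∫ θ in box d, ff d k z θ

lemma ff_cont (d k : ℕ) (z : Fin d → ℤ) : Continuous (ff d k z) := by
  unfold ff lam
  fun_prop

lemma box_compact (d : ℕ) : IsCompact (box d) :=
  isCompact_univ_pi fun _ => isCompact_Icc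

lemma ff_int (d k : ℕ) (z : Fin d → ℤ) : IntegrableOn (ff d k z) (box d) :=
  (ff_cont d k z).continuousOn.integrableOn_compact (box_compact d)

lemma sum_add (d : ℕ) (z : Fin d → ℤ) (θ : Fin d → ℝ) (j : Fin d) :
    ∑ i, θ i * (((z + Pi.single j 1 : Fin d → ℤ) i : ℤ) : ℝ) = (∑ i, θ i * z i) + θ j := by
  have h : ∀ i, θ i * (((z + Pi.single j 1 : Fin d → ℤ) i : ℤ) : ℝ)
      = θ i * z i + θ i * (if i = j then 1 else 0) := by
    intro i
    by_cases hij : i = j
    · subst hij; simp; ring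
    · simp [hij]
  simp only [h, Finset.sum_add_distrib]
  simp

lemma sum_sub (d : ℕ) (z : Fin d → ℤ) (θ : Fin d → ℝ) (j : Fin d) :
    ∑ i, θ i * (((z - Pi.single j 1 : Fin d → ℤ) i : ℤ) : ℝ) = (∑ i, θ i * z i) - θ j := by
  have h : ∀ i, θ i * (((z - Pi.single j 1 : Fin d → ℤ) i : ℤ) : ℝ)
      = θ i * z i - θ i * (if i = j then 1 else 0) := by
    intro i
    by_cases hij : i = j
    · subst hij; simp; ring
    · simp [hij]
  simp only [h, Finset.sum_sub_distrib]
  simp

lemma point (d k : ℕ) (hd : 1 ≤ d) (z : Fin d → ℤ) (θ : Fin d → ℝ) :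
    ff d (k + 1) z θ = 1 / 2 * ff d k z θ + 1 / (4 * d : ℝ) *
      ∑ i, (ff d k (z + Pi.single i 1) θ + ff d k (z - Pi.single i 1) θ) := by
  have hd0 : (d : ℝ) ≠ 0 := by positivity
  unfold ff
  simp only [sum_add, sum_sub]
  have h1 : ∀ i : Fin d, (1 - lam θ / (4 * d)) ^ k * Real.cos ((∑ i, θ i * z i) + θ i)
      + (1 - lam θ / (4 * d)) ^ k * Real.cos ((∑ i, θ i * z i) - θ i)
      = ((1 - lam θ / (4 * d)) ^ k * Real.cos (∑ i, θ i * z i)) * (2 * Real.cos (θ i)) := by
    intro i
    rw [Real.cos_add, Real.cos_sub]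
    ring
  simp only [h1]
  rw [← Finset.mul_sum, pow_succ]
  have h2 : lam θ = 2 * d - ∑ i, 2 * Real.cos (θ i) := by
    unfold lam
    rw [Finset.sum_sub_distrib]
    simp
    ring
  have h3 : 1 - lam θ / (4 * d) = 1 / 2 + 1 / (4 * d : ℝ) * ∑ i, 2 * Real.cos (θ i) := by
    rw [h2]
    field_simp
    ring
  calc (1 - lam θ / (4 * d)) ^ k * (1 - lam θ / (4 * d)) * Real.cos (∑ i, θ i * z i)
      = (1 - lam θ / (4 * d)) ^ k * (1 / 2 + 1 / (4 * d : ℝ) * ∑ i, 2 * Real.cos (θ i))
        * Real.cos (∑ i, θ i * z i) := by rw [← h3]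
    _ = _ := by ring

lemma JJ_succ (d k : ℕ) (hd : 1 ≤ d) (z : Fin d → ℤ) :
    JJ d (k + 1) z = 1 / 2 * JJ d k z + 1 / (4 * d : ℝ) *
      ∑ i, (JJ d k (z + Pi.single i 1) + JJ d k (z - Pi.single i 1)) := by
  unfold JJ
  have h0 : ∫ θ in box d, ff d (k + 1) z θ = ∫ θ in box d, (1 / 2 * ff d k z θ +
      1 / (4 * d : ℝ) * ∑ i, (ff d k (z + Pi.single i 1) θ + ff d k (z - Pi.single i 1) θ)) :=
    integral_congr_ae (Filter.Eventually.of_forall fun θ => point d k hd z θ)
  have i1 : Integrable (fun θ => 1 / 2 * ff d k z θ) (volume.restrict (box d)) :=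
    (ff_int d k z).const_mul _
  have i2 : ∀ i : Fin d, Integrable (fun θ => ff d k (z + Pi.single i 1) θ
      + ff d k (z - Pi.single i 1) θ) (volume.restrict (box d)) :=
    fun i => (ff_int d k _).add (ff_int d k _)
  have i3 : Integrable (fun θ => 1 / (4 * d : ℝ) * ∑ i, (ff d k (z + Pi.single i 1) θ
      + ff d k (z - Pi.single i 1) θ)) (volume.restrict (box d)) :=
    (integrable_finsetSum _ fun i _ => i2 i).const_mul _
  rw [h0, integral_add i1 i3, integral_const_mul, integral_const_mul,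
    integral_finsetSum _ fun i _ => i2 i]
  congr 2
  refine Finset.sum_congr rfl fun i _ => ?_
  exact integral_add (ff_int d k _) (ff_int d k _)

lemma one (n : ℤ) : ∫ x in Set.Icc (-Real.pi) Real.pi, Complex.exp ((x : ℂ) * n * Complex.I)
    = if n = 0 then 2 * (Real.pi : ℂ) else 0 := by
  rw [integral_Icc_eq_integral_Ioc, ← intervalIntegral.integral_of_le
    (by linarith [Real.pi_pos])]
  by_cases hn : n = 0
  · subst hn
    simp
    ring
  · have hc : (n : ℂ) * Complex.I ≠ 0 :=
      mul_ne_zero (Int.cast_ne_zero.mpr hn) Complex.I_ne_zero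
    have h1 : ∀ x : ℝ, Complex.exp ((x : ℂ) * n * Complex.I)
        = Complex.exp ((n : ℂ) * Complex.I * x) := by
      intro x; congr 1; ring
    simp only [h1, hn, if_false]
    rw [integral_exp_mul_complex hc]
    have h2 : Complex.exp ((n : ℂ) * Complex.I * (Real.pi : ℝ))
        = Complex.exp ((n : ℂ) * Complex.I * ((-Real.pi : ℝ) : ℂ)) := by
      rw [Complex.exp_eq_exp_iff_exists_int]
      refine ⟨n, ?_⟩
      push_cast
      ring
    rw [h2, sub_self, zero_div]

lemma base (d : ℕ) (z : Fin d → ℤ) :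
    JJ d 0 z = (2 * Real.pi) ^ d * (if z = 0 then 1 else 0) := by
  have hvol : (volume.restrict (box d) : Measure (Fin d → ℝ))
      = Measure.pi (fun _ : Fin d => (volume : Measure ℝ).restrict
        (Set.Icc (-Real.pi) Real.pi)) := by
    unfold box
    rw [volume_pi, Measure.restrict_pi_pi]
  have hC : ∫ θ in box d, Complex.exp (((∑ i, θ i * z i : ℝ) : ℂ) * Complex.I)
      = (((2 * Real.pi) ^ d * (if z = 0 then 1 else 0) : ℝ) : ℂ) := by
    have h1 : ∀ θ : Fin d → ℝ, Complex.exp (((∑ i, θ i * z i : ℝ) : ℂ) * Complex.I)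
        = ∏ i, Complex.exp ((θ i : ℂ) * z i * Complex.I) := by
      intro θ
      rw [← Complex.exp_sum]
      congr 1
      push_cast
      rw [Finset.sum_mul]
    simp only [h1]
    rw [hvol]
    rw [integral_fintype_prod_eq_prod (𝕜 := ℂ)
      (f := fun i (x : ℝ) => Complex.exp ((x : ℂ) * z i * Complex.I))]
    simp only [one]
    by_cases hz : z = 0
    · subst hz
      simp
    · have hz' : ∃ i, z i ≠ 0 := by
        by_contra h
        push Not at h
        exact hz (funext h)
      obtain ⟨i, hi⟩ := hz'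
      rw [Finset.prod_eq_zero (Finset.mem_univ i) (by simp [hi])]
      simp [hz]
  have hint : IntegrableOn (fun θ : Fin d → ℝ =>
      Complex.exp (((∑ i, θ i * z i : ℝ) : ℂ) * Complex.I)) (box d) := by
    have hc : Continuous (fun θ : Fin d → ℝ =>
      Complex.exp (((∑ i, θ i * z i : ℝ) : ℂ) * Complex.I)) := by fun_prop
    exact hc.continuousOn.integrableOn_compact (box_compact d)
  have h2 : JJ d 0 z = (∫ θ in box d,
      Complex.exp (((∑ i, θ i * z i : ℝ) : ℂ) * Complex.I)).re := by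
    have h3 := integral_re (𝕜 := ℂ) hint
    simp only [RCLike.re_to_complex] at h3
    rw [← h3]
    unfold JJ ff
    refine integral_congr_ae (Filter.Eventually.of_forall fun θ => ?_)
    simp only [pow_zero, one_mul]
    rw [Complex.exp_ofReal_mul_I_re]
  rw [h2, hC, Complex.ofReal_re]

theorem t_FR : S_FR := by
  intro d k hd
  have hp : (2 * Real.pi) ^ d ≠ 0 := pow_ne_zero _ (by positivity)
  suffices h : ∀ z, pk d k z = 1 / (2 * Real.pi) ^ d * JJ d k z from h
  induction k with
  | zero =>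
    intro z
    rw [base, pk]
    field_simp
  | succ k ih =>
    intro z
    rw [pk, JJ_succ d k hd z]
    simp only [ih]
    rw [mul_add, Finset.mul_sum, Finset.mul_sum, Finset.mul_sum]
    congr 1
    · ring
    · refine Finset.sum_congr rfl fun i _ => ?_
      ring

end

end Pool.Agent.W557.SCH
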